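import Pool.Agent.helper11.VD.Spec3e
import Pool.Agent.helper32.VD.AMVI

/-!
# Project VD (MP_07c750_an), block C: row MVE, the Riemannian volume
-/

set_option autoImplicit false

open scoped ContDiff Topology InnerProductSpace ENNReal ComplexConjugate
open MeasureTheory Filter Set

namespace Pool.Agent.VD

open Pool.Agent.RPQ (PN PJ UN upd IsOp nst)
open Pool.Agent.VQ (CH PS KZ perZ cmZ stZ wdZ InvS AdZ vz mZ wM qZ phZ rk)
open Pool.Agent.VN (aN)
open Pool.Agent.VDE (UWLD FDX)

noncomputable section

theorem MVE_proof : MVE_stmt := by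
  intro d G hG
  obtain ⟨hs, hp⟩ := AMVI_dens G hG
  have hc : Continuous (dens G) := hs.continuous
  have hcoe : (fun x => ENNReal.ofReal (dens G x)) = fun x => ((Real.toNNReal (dens G x) : NNReal) : ENNReal) := rfl
  refine ⟨hc, hp, fun F g hF => ?_, fun F b hF hb => ?_, fun F h hF hh => ?_⟩
  · unfold mv
    rw [restrict_withDensity hF, hcoe, integral_withDensity_eq_integral_smul (hc.measurable.real_toNNReal)]
    refine integral_congr_ae (Filter.Eventually.of_forall fun x => ?_)
    simp only [NNReal.smul_def, Real.coe_toNNReal _ (hp x).le, smul_eq_mul]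
    ring
  · have hint : IntegrableOn (dens G) F volume := by
      have h1 : IntegrableOn (dens G) (Metric.closedBall (0 : V d) b) volume :=
        hc.continuousOn.integrableOn_compact (isCompact_closedBall _ _)
      refine h1.mono_set fun x hx => ?_
      rw [mem_closedBall_zero_iff]
      exact hb x hx
    have happ : mv G F = ∫⁻ x in F, ENNReal.ofReal (dens G x) := by
      unfold mv
      exact withDensity_apply _ hF
    refine ⟨?_, ?_⟩
    · rw [happ]
      exact Integrable.lintegral_lt_top hint
    · rw [happ, integral_eq_lintegral_of_nonneg_ae (Filter.Eventually.of_forall fun x => (hp x).le)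
        hint.aestronglyMeasurable]
  · have h0 : 0 ≤ ∫ x in F, h x ∂mv G := integral_nonneg fun x => (hh x).1
    unfold mean
    refine ⟨div_nonneg h0 ENNReal.toReal_nonneg, ?_⟩
    by_cases ht : (mv G F).toReal = 0
    · rw [ht, div_zero]
      exact zero_le_one
    · have hpos : 0 < (mv G F).toReal := lt_of_le_of_ne ENNReal.toReal_nonneg (Ne.symm ht)
      rw [div_le_one hpos]
      have hfin : mv G F ≠ ⊤ := by
        intro h1
        rw [h1] at ht
        exact ht rfl
      have hI : IntegrableOn (fun _ : V d => (1 : ℝ)) F (mv G) := integrableOn_const hfin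
      have h2 : ∫ x in F, h x ∂mv G ≤ ∫ x in F, (1 : ℝ) ∂mv G :=
        integral_mono_of_nonneg (Filter.Eventually.of_forall fun x => (hh x).1) hI
          (Filter.Eventually.of_forall fun x => (hh x).2)
      refine h2.trans ?_
      rw [setIntegral_const, smul_eq_mul, mul_one]
      exact le_rfl

end

end Pool.Agent.VD
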